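import Pool.Agent.MP_8d06cc_nt.AB.Final

open Polynomial Pool.Agent.MP_8d06cc_nt.H27

namespace Pool.Agent.Results.MP_8d06cc_nt.AllButFinite

/-- Up to isomorphism of function fields over the rationals, only finitely many genus 3
hyperelliptic curves `y ^ 2 = f(x)` whose group of degree zero divisor classes has rank zero have
more than 12 rational points. -/
theorem result : ∃ S : Set ℚ[X], S.Finite ∧ (∀ g ∈ S, Squarefree g ∧ g.natDegree = 8) ∧
    ∀ (f : ℚ[X]) (F : Type) [Field F] [Algebra ℚ F] (x y : F), Squarefree f →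
      (f.natDegree = 7 ∨ f.natDegree = 8) → Transcendental ℚ x → y ^ 2 = aeval x f →
      IntermediateField.adjoin ℚ {x, y} = ⊤ → Module.rank ℤ (Pic0 ℚ F) = 0 → 12 < numPts f →
      ∃ g ∈ S, ∃ u v : F, Transcendental ℚ u ∧ v ^ 2 = aeval u g ∧
        IntermediateField.adjoin ℚ {u, v} = ⊤ := by
  obtain ⟨S, h1, h2, h3⟩ := Pool.Agent.MP_8d06cc_nt.AB.main
  refine ⟨S, h1, h2, fun f F _ _ x y hs hd hx hy hF hr hn => ?_⟩
  obtain ⟨g, hg, u, v, M⟩ := h3 f F x y hs hd ⟨hx, hy, hF⟩ hr hn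
  exact ⟨g, hg, u, v, M.tr, M.eq, M.gen⟩

end Pool.Agent.Results.MP_8d06cc_nt.AllButFinite
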