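import Pool.Agent.MP_8d06cc_nt.H90.Rat5

open Polynomial Pool.Agent.MP_8d06cc_nt.H27

namespace Pool.Agent.Results.MP_8d06cc_nt.Bound18

/-- A genus 3 hyperelliptic curve `y ^ 2 = f(x)` over the rationals whose group of degree zero
divisor classes has rank zero has at most 18 rational points. -/
theorem result (f : ℚ[X]) (hs : Squarefree f) (hd : f.natDegree = 7 ∨ f.natDegree = 8)
    (F : Type) [Field F] [Algebra ℚ F] (x y : F) (hx : Transcendental ℚ x)
    (hy : y ^ 2 = aeval x f) (hF : IntermediateField.adjoin ℚ {x, y} = ⊤)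
    (hr : Module.rank ℤ (Pic0 ℚ F) = 0) : numPts f ≤ 18 := by
  simpa [numPts] using main_wg (e := 1) (B := 18) Cfg.eighteen ⟨hx, hy, hF⟩ hs hd hr

end Pool.Agent.Results.MP_8d06cc_nt.Bound18
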