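import Pool.Agent.MP_8d06cc_nt.H90.Fin

open Polynomial Pool.Agent.MP_8d06cc_nt.H27

namespace Pool.Agent.Results.MP_8d06cc_nt.NonWeierstrass12

open Classical in
/-- A genus 3 hyperelliptic curve `y ^ 2 = f(x)` over the rationals whose group of degree zero
divisor classes has rank zero has at most 12 rational points that are not Weierstrass points. -/
theorem result (f : ℚ[X]) (hs : Squarefree f) (hd : f.natDegree = 7 ∨ f.natDegree = 8)
    (F : Type) [Field F] [Algebra ℚ F] (x y : F) (hx : Transcendental ℚ x)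
    (hy : y ^ 2 = aeval x f) (hF : IntermediateField.adjoin ℚ {x, y} = ⊤)
    (hr : Module.rank ℤ (Pic0 ℚ F) = 0) :
    {p : ℚ × ℚ | p.2 ^ 2 = f.eval p.1 ∧ p.2 ≠ 0}.encard +
      (if f.natDegree = 8 ∧ IsSquare f.leadingCoeff then 2 else 0) ≤ 12 := by
  have := main_wg (e := 0) (B := 12) (fun Z => by rw [Z.wg_eq]; have := Z.six; omega)
    ⟨hx, hy, hF⟩ hs hd hr
  rcases hd with h | h <;> simpa [h] using this

end Pool.Agent.Results.MP_8d06cc_nt.NonWeierstrass12
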